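import Pool.Agent.N84.MD.BC
import Pool.Agent.Results.MP_484fb8_nt.RandomDigits

/-!
# The primorial form of Goldbach's conjecture for all even integers near the first digits of almost every real number

The theorem `RandomDigits` of this page considers one random integer `m = c + ∑ d j b ^ j` with `k` independent random
digits: the assertion of the problem holds for `m`, if `m` is even, with a probability of at least `1 - 1 / k ^ U`. Here a
sequence of random integers is given on one probability space, with `k` digits for the number `k`, for example the integers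
formed by the first `k` digits of a random real number. Almost surely the assertion of the problem holds for ALL even
integers at a distance of at most `k ^ W` from the `k`-th one, for ALL large `k`, and the number of the representations is
the predicted one. This applies

* to almost every real number `ξ` in `[0, 1)` and all the even integers at a distance of at most `k ^ W` from
  `c_k + [b ^ k ξ]`, where `c_k` are arbitrary integers with `|c_k| ≤ B b ^ k`;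
* to almost every point `ξ` with respect to the Cantor measure or any other measure for which the digits are independent and
  no digit takes a value with a probability larger than `1 - η`, and to measures for which the joint law of the first
  `k` digits is at most `k ^ T₀` times such a law (prescribed frequencies of the digits up to bounded errors).

So for a sequence as sparse as the truncations of one real number there are no exceptions from some point on.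
-/

set_option autoImplicit false

open Filter MeasureTheory Finset
open scoped ENNReal

namespace Pool.Agent.Results.MP_484fb8_nt.AlmostEveryRealNumber

open Pool.Agent.Results.MP_484fb8_nt.RandomDigits (Holds Prob value)

/-- For all `W` and `ε > 0` and for all large `k`: all the even integers `m ≥ 1` at a distance of at most `k ^ W` from `y_k`
have the property `Holds ε m`. -/
def Always (y : ℕ → ℤ) : Prop :=
  ∀ (W : ℕ) (ε : ℝ), 0 < ε → ∀ᶠ k : ℕ in atTop, ∀ m : ℕ, 1 ≤ m → Even m → |(m : ℤ) - y k| ≤ (k : ℤ) ^ W → Holds ε m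

/-- The random digits `D 0, ..., D (k - 1)` are elements of `{0, ..., H - 1}`, and their joint law is at most `k ^ T₀` times the
law of independent digits with certain distributions `w j`, none of which takes a value with a probability larger than
`1 - η`. (For `T₀ = 0`: the digits are independent and `D j` has the distribution `w j`.) -/
def Digits {Ω : Type} [MeasurableSpace Ω] (ν : Measure Ω) (H : ℕ) (η : ℝ) (T₀ k : ℕ) (D : ℕ → Ω → ℕ) : Prop :=
  (∀ j < k, ∀ ω, D j ω < H) ∧ ∃ w : ℕ → ℕ → ℝ, (∀ j < k, (∀ a, 0 ≤ w j a ∧ w j a ≤ 1 - η) ∧ ∑ a ∈ range H, w j a = 1) ∧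
    ∀ d : Fin k → ℕ, (∀ j, d j < H) →
      ν {ω | ∀ j : Fin k, D j ω = d j} ≤ ENNReal.ofReal ((k : ℝ) ^ T₀ * ∏ j : Fin k, w j (d j))

/-- a larger `ε` is weaker -/
theorem holds_mono {ε ε' : ℝ} {m : ℕ} (h : Holds ε m) (hε : ε ≤ ε') : Holds ε' m := by
  intro n hn h1 h2
  obtain ⟨h3, h4⟩ := h n hn h1 h2
  refine ⟨h3, h4.trans ?_⟩
  have hpos : 0 ≤ Pool.Agent.H560R3.GB.sing m * RandomDigits.P n / Real.log m ^ 2 := by
    have h0 : 0 ≤ Pool.Agent.H560R3.GB.sing m := (zero_le_one.trans (Pool.Agent.W93.GB.one_le_sing m))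
    positivity
  nlinarith

/-- the probability of an event which depends on the digits -/
theorem event_le {Ω : Type} [MeasurableSpace Ω] (ν : Measure Ω) (H : ℕ) (η : ℝ) (T₀ k : ℕ) (D : ℕ → Ω → ℕ)
    (w : ℕ → ℕ → ℝ) (hD : ∀ j < k, ∀ ω, D j ω < H) (hw : ∀ j < k, ∀ a, 0 ≤ w j a)
    (hd : ∀ d : Fin k → ℕ, (∀ j, d j < H) →
      ν {ω | ∀ j : Fin k, D j ω = d j} ≤ ENNReal.ofReal ((k : ℝ) ^ T₀ * ∏ j : Fin k, w j (d j)))
    (E : (Fin k → ℕ) → Prop) :
    ν {ω | E fun j => D j ω} ≤ ENNReal.ofReal ((k : ℝ) ^ T₀ * Prob H k w E) := by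
  classical
  have h1 : {ω | E fun j => D j ω} ⊆
      ⋃ d ∈ (Fintype.piFinset (fun _ : Fin k => range H)).filter E, {ω | ∀ j : Fin k, D j ω = d j} := by
    intro ω hω
    simp only [Set.mem_iUnion]
    refine ⟨fun j => D j ω, mem_filter.2 ⟨Fintype.mem_piFinset.2 fun j => mem_range.2 (hD j j.2 ω), hω⟩, fun j => rfl⟩
  refine (measure_mono h1).trans ((measure_biUnion_finset_le _ _).trans ?_)
  have hk : (0 : ℝ) ≤ (k : ℝ) ^ T₀ := by positivity
  have h2 : ∀ d : Fin k → ℕ, 0 ≤ (k : ℝ) ^ T₀ * ∏ j : Fin k, w j (d j) := fun d =>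
    mul_nonneg hk (prod_nonneg fun j _ => hw j j.2 _)
  have h3 : (k : ℝ) ^ T₀ * Prob H k w E =
      ∑ d ∈ (Fintype.piFinset (fun _ : Fin k => range H)).filter E, (k : ℝ) ^ T₀ * ∏ j : Fin k, w j (d j) := by
    unfold RandomDigits.Prob
    rw [mul_sum, sum_filter]
    refine sum_congr rfl fun d _ => ?_
    split_ifs
    · rfl
    · rw [mul_zero]
  rw [h3, ENNReal.ofReal_sum_of_nonneg fun d _ => h2 d]
  refine sum_le_sum fun d hd' => hd d fun j => ?_
  exact mem_range.1 (Fintype.mem_piFinset.1 (mem_filter.1 hd').1 j)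

/-- all the even integers near the random integers -/
theorem near_le (b H B : ℕ) (hb : 2 ≤ b) (η : ℝ) (hη : 0 < η) (T₀ W : ℕ) (ε : ℝ) (hε : 0 < ε) :
    ∃ k₀ : ℕ, ∀ k : ℕ, k₀ ≤ k → ∀ (Ω : Type) [MeasurableSpace Ω] (ν : Measure Ω) (D : ℕ → Ω → ℕ),
      Digits ν H η T₀ k D → ∀ c : ℤ, |c| ≤ B * (b : ℤ) ^ k →
        ν {ω | ¬ ∀ m : ℕ, 1 ≤ m → Even m → |(m : ℤ) - (c + ∑ j ∈ range k, (D j ω : ℤ) * (b : ℤ) ^ j)| ≤ (k : ℤ) ^ W →
          Holds ε m} ≤ ENNReal.ofReal (1 / (k : ℝ) ^ 2) := by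
  obtain ⟨k₀, h0⟩ := Pool.Agent.Results.MP_484fb8_nt.RandomDigits.result b H (B + 1) (W + T₀ + 4) hb η ε hη hε
  have hlim : ∀ᶠ k : ℕ in atTop, (k : ℝ) ^ W ≤ (b : ℝ) ^ k := by
    have hb1 : (1 : ℝ) < b := by exact_mod_cast (by omega : 1 < b)
    have h1 := (isLittleO_pow_const_const_pow_of_one_lt (R := ℝ) W hb1).bound one_pos
    filter_upwards [h1] with k hk
    rw [one_mul, Real.norm_of_nonneg (by positivity), Real.norm_of_nonneg (by positivity)] at hk
    exact hk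
  obtain ⟨k₁, h1⟩ := eventually_atTop.1 hlim
  refine ⟨max (max k₀ k₁) 3, fun k hk Ω _ ν D hDig c hc => ?_⟩
  have hk0 : k₀ ≤ k := ((le_max_left _ _).trans (le_max_left _ _)).trans hk
  have hk1 : k₁ ≤ k := ((le_max_right _ _).trans (le_max_left _ _)).trans hk
  have hk2 : 3 ≤ k := (le_max_right _ _).trans hk
  have hk3 : (3 : ℝ) ≤ k := by exact_mod_cast hk2
  have hkW : (k : ℤ) ^ W ≤ (b : ℤ) ^ k := by exact_mod_cast h1 k hk1
  obtain ⟨hD, w, hw, hd⟩ := hDig
  -- the event for one translation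
  have hone : ∀ r ∈ Finset.Icc (-((k : ℤ) ^ W)) ((k : ℤ) ^ W),
      ν {ω | 0 < value b (c + r) (fun j : Fin k => D j ω) ∧ Even (value b (c + r) fun j : Fin k => D j ω) ∧
        ¬ Holds ε (value b (c + r) fun j : Fin k => D j ω).toNat} ≤
        ENNReal.ofReal (1 / (k : ℝ) ^ (W + 4)) := by
    intro r hr
    rw [Finset.mem_Icc] at hr
    have hr' : |r| ≤ (k : ℤ) ^ W := abs_le.2 hr
    have h3 := event_le ν H η T₀ k D w hD (fun j hj a => ((hw j hj).1 a).1) hd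
      (fun d => 0 < value b (c + r) d ∧ Even (value b (c + r) d) ∧ ¬ Holds ε (value b (c + r) d).toNat)
    refine h3.trans (ENNReal.ofReal_le_ofReal ?_)
    have h4 := h0 k hk0 w hw (c + r) (by
      push_cast
      linarith [abs_add_le c r])
    have h5 : (k : ℝ) ^ T₀ * (1 / (k : ℝ) ^ (W + T₀ + 4)) = 1 / (k : ℝ) ^ (W + 4) := by
      have : (k : ℝ) ^ (W + T₀ + 4) = (k : ℝ) ^ T₀ * (k : ℝ) ^ (W + 4) := by ring
      rw [this]
      field_simp
    rw [← h5]
    exact mul_le_mul_of_nonneg_left h4 (by positivity)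
  have hsub : {ω | ¬ ∀ m : ℕ, 1 ≤ m → Even m → |(m : ℤ) - (c + ∑ j ∈ range k, (D j ω : ℤ) * (b : ℤ) ^ j)| ≤ (k : ℤ) ^ W →
      Holds ε m} ⊆ ⋃ r ∈ Finset.Icc (-((k : ℤ) ^ W)) ((k : ℤ) ^ W),
        {ω | 0 < value b (c + r) (fun j : Fin k => D j ω) ∧ Even (value b (c + r) fun j : Fin k => D j ω) ∧
          ¬ Holds ε (value b (c + r) fun j : Fin k => D j ω).toNat} := by
    intro ω hω
    rw [Set.mem_ofPred_eq] at hω
    push Not at hω
    obtain ⟨m, hm1, hm2, hm3, hm4⟩ := hω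
    simp only [Set.mem_iUnion]
    refine ⟨(m : ℤ) - (c + ∑ j ∈ range k, (D j ω : ℤ) * (b : ℤ) ^ j), Finset.mem_Icc.2 (abs_le.1 hm3), ?_⟩
    have hv : value b (c + ((m : ℤ) - (c + ∑ j ∈ range k, (D j ω : ℤ) * (b : ℤ) ^ j))) (fun j : Fin k => D j ω) = m := by
      unfold RandomDigits.value
      rw [Fin.sum_univ_eq_sum_range (fun j => (D j ω : ℤ) * (b : ℤ) ^ j) k]
      ring
    rw [Set.mem_ofPred_eq, hv]
    exact ⟨by exact_mod_cast hm1, by exact_mod_cast hm2, by simpa using hm4⟩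
  refine (measure_mono hsub).trans ((measure_biUnion_finset_le _ _).trans ((sum_le_sum hone).trans ?_))
  rw [sum_const, Int.card_Icc, nsmul_eq_mul]
  have hcard : (((k : ℤ) ^ W + 1 - -((k : ℤ) ^ W)).toNat : ℝ) ≤ 3 * (k : ℝ) ^ W := by
    have h6 : ((k : ℤ) ^ W + 1 - -((k : ℤ) ^ W)).toNat = 2 * k ^ W + 1 := by
      have : (k : ℤ) ^ W + 1 - -((k : ℤ) ^ W) = ((2 * k ^ W + 1 : ℕ) : ℤ) := by
        push_cast
        ring
      rw [this, Int.toNat_natCast]
    rw [h6]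
    push_cast
    have : (1 : ℝ) ≤ (k : ℝ) ^ W := one_le_pow₀ (by linarith)
    linarith
  rw [← ENNReal.ofReal_natCast, ← ENNReal.ofReal_mul (Nat.cast_nonneg _)]
  refine ENNReal.ofReal_le_ofReal ?_
  calc (((k : ℤ) ^ W + 1 - -((k : ℤ) ^ W)).toNat : ℝ) * (1 / (k : ℝ) ^ (W + 4))
      ≤ 3 * (k : ℝ) ^ W * (1 / (k : ℝ) ^ (W + 4)) := mul_le_mul_of_nonneg_right hcard (by positivity)
    _ = 3 / (k : ℝ) ^ 4 := by
      rw [pow_add]
      field_simp
    _ ≤ 1 / (k : ℝ) ^ 2 := by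
      rw [div_le_div_iff₀ (by positivity) (by positivity)]
      nlinarith [sq_nonneg ((k : ℝ) ^ 2), show (9 : ℝ) ≤ (k : ℝ) ^ 2 by nlinarith, pow_pos (show (0 : ℝ) < k by linarith) 2]

/-- the digits of an integer -/
theorem digit_sum (b v k : ℕ) : ∑ j ∈ range k, (v / b ^ j % b) * b ^ j = v % b ^ k := by
  induction k with
  | zero => simp [Nat.mod_one]
  | succ k ih => rw [sum_range_succ, ih, Nat.mod_pow_succ]; ring

/-- the digits of the integer part of `b ^ k ξ` -/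
theorem digits_real (b : ℕ) (hb : 2 ≤ b) (k : ℕ) :
    Digits (volume.restrict (Set.Ico (0 : ℝ) 1)) b (1 / 2) 0 k fun j ξ => ⌊((b ^ k : ℕ) : ℝ) * ξ⌋₊ / b ^ j % b := by
  have hb0 : (0 : ℝ) < b := by exact_mod_cast (by omega : 0 < b)
  have hb2 : (2 : ℝ) ≤ b := by exact_mod_cast hb
  have hpos : 0 < b ^ k := Nat.pow_pos (by omega)
  refine ⟨fun j _ ξ => Nat.mod_lt _ (by omega), fun _ _ => 1 / b, fun j _ => ⟨fun a => ⟨by positivity, ?_⟩, ?_⟩, ?_⟩
  · rw [div_le_iff₀ hb0]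
    linarith
  · rw [sum_const, card_range, nsmul_eq_mul]
    field_simp
  · intro d _
    have h1 : {ξ : ℝ | ∀ j : Fin k, ⌊((b ^ k : ℕ) : ℝ) * ξ⌋₊ / b ^ (j : ℕ) % b = d j} ⊆
        {ξ : ℝ | ⌊((b ^ k : ℕ) : ℝ) * ξ⌋₊ % b ^ k = (∑ j : Fin k, d j * b ^ (j : ℕ)) % b ^ k} := by
      intro ξ hξ
      rw [Set.mem_ofPred_eq] at hξ ⊢
      have h2 := digit_sum b ⌊((b ^ k : ℕ) : ℝ) * ξ⌋₊ k
      rw [← Fin.sum_univ_eq_sum_range (fun j => (⌊((b ^ k : ℕ) : ℝ) * ξ⌋₊ / b ^ j % b) * b ^ j) k] at h2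
      rw [sum_congr rfl fun j _ => by rw [hξ j]] at h2
      rw [h2, Nat.mod_mod]
    refine (measure_mono h1).trans ?_
    rw [Pool.Agent.N84.MD.unif (b ^ k) hpos _ (Nat.mod_lt _ hpos)]
    refine ENNReal.ofReal_le_ofReal (le_of_eq ?_)
    rw [prod_const, card_univ, Fintype.card_fin, pow_zero, one_mul, one_div_pow]
    push_cast
    rfl

/-- **(1)** Let, for every `k`, random digits `D k 0, ..., D k (k - 1)` in `{0, ..., H - 1}` be given on a probability space which,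
for all large `k`, are independent (or have a joint law of at most `k ^ T₀` times such a law) and do not take any value
with a probability larger than `1 - η`, and let `c_k` be integers with `|c_k| ≤ B b ^ k`. Then almost surely
`Always y` holds for `y_k = c_k + ∑_{j < k} D k j b ^ j`: for all large `k` the assertion of the problem holds for all even
`m ≥ 1` with `|m - y_k| ≤ k ^ W`, with the predicted number of representations.

**(2)** For all `b ≥ 2` and integers `c_k` with `|c_k| ≤ B b ^ k`, almost every real number `ξ` in `[0, 1)` has the property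
`Always y` with `y_k = c_k + [b ^ k ξ]`. -/
theorem result :
    (∀ b H : ℕ, 2 ≤ b → ∀ η : ℝ, 0 < η → ∀ (T₀ B : ℕ) (c : ℕ → ℤ), (∀ k, |c k| ≤ B * (b : ℤ) ^ k) →
      ∀ (Ω : Type) [MeasurableSpace Ω] (ν : Measure Ω) [IsProbabilityMeasure ν] (D : ℕ → ℕ → Ω → ℕ),
      (∀ᶠ k : ℕ in atTop, Digits ν H η T₀ k (D k)) →
        ∀ᵐ ω ∂ν, Always fun k => c k + ∑ j ∈ range k, (D k j ω : ℤ) * (b : ℤ) ^ j) ∧
    (∀ b : ℕ, 2 ≤ b → ∀ (B : ℕ) (c : ℕ → ℤ), (∀ k, |c k| ≤ B * (b : ℤ) ^ k) →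
      ∀ᵐ ξ : ℝ, 0 ≤ ξ → ξ < 1 → Always fun k => c k + (⌊(b : ℝ) ^ k * ξ⌋₊ : ℤ)) := by
  classical
  have main : ∀ b H : ℕ, 2 ≤ b → ∀ η : ℝ, 0 < η → ∀ (T₀ B : ℕ) (c : ℕ → ℤ), (∀ k, |c k| ≤ B * (b : ℤ) ^ k) →
      ∀ (Ω : Type) [MeasurableSpace Ω] (ν : Measure Ω) [IsProbabilityMeasure ν] (D : ℕ → ℕ → Ω → ℕ),
      (∀ᶠ k : ℕ in atTop, Digits ν H η T₀ k (D k)) →
        ∀ᵐ ω ∂ν, Always fun k => c k + ∑ j ∈ range k, (D k j ω : ℤ) * (b : ℤ) ^ j := by
    intro b H hb η hη T₀ B c hc Ω _ ν _ D hlaw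
    have key : ∀ (W n : ℕ), ∀ᵐ ω ∂ν, ∀ᶠ k : ℕ in atTop, ∀ m : ℕ, 1 ≤ m → Even m →
        |(m : ℤ) - (c k + ∑ j ∈ range k, (D k j ω : ℤ) * (b : ℤ) ^ j)| ≤ (k : ℤ) ^ W → Holds (1 / ((n : ℝ) + 1)) m := by
      intro W n
      obtain ⟨k₀, h0⟩ := near_le b H B hb η hη T₀ W (1 / ((n : ℝ) + 1)) (by positivity)
      obtain ⟨k₁, h1⟩ := eventually_atTop.1 hlaw
      have h2 := Pool.Agent.N84.MD.bc ν (fun k => {ω | ¬ ∀ m : ℕ, 1 ≤ m → Even m →
        |(m : ℤ) - (c k + ∑ j ∈ range k, (D k j ω : ℤ) * (b : ℤ) ^ j)| ≤ (k : ℤ) ^ W → Holds (1 / ((n : ℝ) + 1)) m})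
        ⟨max k₀ k₁, fun k hk => h0 k ((le_max_left _ _).trans hk) Ω ν (D k) (h1 k ((le_max_right _ _).trans hk)) (c k) (hc k)⟩
      filter_upwards [h2] with ω hω
      filter_upwards [hω] with k h3
      by_contra h4
      exact h3 h4
    have hall : ∀ᵐ ω ∂ν, ∀ (W n : ℕ), ∀ᶠ k : ℕ in atTop, ∀ m : ℕ, 1 ≤ m → Even m →
        |(m : ℤ) - (c k + ∑ j ∈ range k, (D k j ω : ℤ) * (b : ℤ) ^ j)| ≤ (k : ℤ) ^ W → Holds (1 / ((n : ℝ) + 1)) m :=
      ae_all_iff.2 fun W => ae_all_iff.2 fun n => key W n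
    filter_upwards [hall] with ω hω W ε hε
    obtain ⟨n, hn⟩ := exists_nat_one_div_lt hε
    filter_upwards [hω W n] with k hk m hm1 hm2 hm3
    exact holds_mono (hk m hm1 hm2 hm3) hn.le
  refine ⟨main, fun b hb B c hc => ?_⟩
  have : IsProbabilityMeasure (volume.restrict (Set.Ico (0 : ℝ) 1)) :=
    ⟨by rw [Measure.restrict_apply_univ, Real.volume_Ico]; norm_num⟩
  have h1 := main b b hb (1 / 2) (by norm_num) 0 B c hc ℝ (volume.restrict (Set.Ico (0 : ℝ) 1))
    (fun k j ξ => ⌊((b ^ k : ℕ) : ℝ) * ξ⌋₊ / b ^ j % b) (Filter.Eventually.of_forall fun k => digits_real b hb k)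
  rw [ae_restrict_iff' measurableSet_Ico] at h1
  filter_upwards [h1] with ξ hξ h2 h3
  have h4 := hξ ⟨h2, h3⟩
  have h5 : (fun k : ℕ => c k + ∑ j ∈ range k, ((⌊((b ^ k : ℕ) : ℝ) * ξ⌋₊ / b ^ j % b : ℕ) : ℤ) * (b : ℤ) ^ j) =
      fun k : ℕ => c k + (⌊(b : ℝ) ^ k * ξ⌋₊ : ℤ) := by
    funext k
    congr 1
    have hbk : (0 : ℝ) < (b : ℝ) ^ k := by
      have : (0 : ℝ) < b := by exact_mod_cast (by omega : 0 < b)
      positivity
    have h6 := digit_sum b ⌊((b ^ k : ℕ) : ℝ) * ξ⌋₊ k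
    have h7 : ⌊((b ^ k : ℕ) : ℝ) * ξ⌋₊ % b ^ k = ⌊((b ^ k : ℕ) : ℝ) * ξ⌋₊ := by
      refine Nat.mod_eq_of_lt ?_
      rw [Nat.floor_lt (by push_cast; positivity)]
      push_cast
      nlinarith
    rw [h7] at h6
    have h8 : ((⌊((b ^ k : ℕ) : ℝ) * ξ⌋₊ : ℕ) : ℤ) = (⌊(b : ℝ) ^ k * ξ⌋₊ : ℤ) := by
      push_cast
      rfl
    have h9 : ∑ j ∈ range k, ((⌊((b ^ k : ℕ) : ℝ) * ξ⌋₊ / b ^ j % b : ℕ) : ℤ) * (b : ℤ) ^ j =
        ((⌊((b ^ k : ℕ) : ℝ) * ξ⌋₊ : ℕ) : ℤ) := by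
      exact_mod_cast h6
    rw [h9, h8]
  rw [h5] at h4
  exact h4

end Pool.Agent.Results.MP_484fb8_nt.AlmostEveryRealNumber
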