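import Pool.Agent.N837.LP.GenW

set_option autoImplicit false

/-!
# Primorial intervals: any `A log m` primes of the lower interval fail for a positive proportion

For every `A ≥ 1` and `0 < η ≤ 1`, for every large `n`, every window `(X, X + X ^ η]` inside the
`(n + 1)`-primorial interval and EVERY set `S` of at most `A log X` primes of the `n`-primorial interval
(such as the first ones, or the last ones), for a positive proportion of the even `m` in the window
`m - p` is composite for all `p ∈ S`.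
-/

namespace Pool.Agent.Results.MP_484fb8_nt.FirstPrimorialPrimes

/-- the product of the first `n` primes -/
noncomputable def pri (n : ℕ) : ℕ := ∏ i ∈ Finset.range n, Nat.nth Nat.Prime i

theorem pri_ge (n : ℕ) : n ≤ pri n := by
  have h : 2 ^ n ≤ pri n := by
    unfold pri
    have := Finset.prod_le_prod' (s := Finset.range n) (f := fun _ : ℕ => (2 : ℕ))
      (g := fun i => Nat.nth Nat.Prime i) (fun i _ => (Nat.prime_nth_prime i).two_le)
    simpa using this
  exact (Nat.lt_two_pow_self).le.trans h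

theorem result (δ : ℝ) (hδ : 0 < δ) : ∃ C : ℝ, 0 < C ∧ ∀ A η : ℝ, 1 ≤ A → 0 < η → η ≤ 1 →
    ∃ n₀ : ℕ, ∀ n : ℕ, n₀ ≤ n → ∀ X : ℝ, (pri n : ℝ) ≤ X → X + X ^ η ≤ pri (n + 1) + 1 →
    ∀ S : Finset ℕ, (∀ p ∈ S, p.Prime ∧ pri (n - 1) + 1 ≤ p ∧ p ≤ pri n + 1) →
    (S.card : ℝ) ≤ A * Real.log X →
    X ^ η * Real.exp (-Real.exp (C * A / η)) ≤
      (({m : ℕ | Even m ∧ pri n + 1 ≤ m ∧ m ≤ pri (n + 1) + 1 ∧ X < m ∧ (m : ℝ) ≤ X + X ^ η ∧
        ∀ p ∈ S, p < m → ∃ q : ℕ, q.Prime ∧ (q : ℝ) ≤ X ^ (η * δ) ∧ q ∣ m - p ∧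
          q < m - p}).ncard : ℝ) := by
  classical
  obtain ⟨C, hC, h⟩ := Pool.Agent.N837.LP.genW δ hδ
  refine ⟨C, hC, fun A η hA hη hη1 => ?_⟩
  obtain ⟨X₀, hX₀⟩ := h A η 2 hA hη hη1 (by norm_num)
  refine ⟨⌈max X₀ 4⌉₊, fun n hn X hnX hXn S hS hSc => ?_⟩
  have hnR : max X₀ 4 ≤ X := by
    have e1 : max X₀ 4 ≤ (n : ℝ) := (Nat.le_ceil _).trans (by exact_mod_cast hn)
    have e2 : (n : ℝ) ≤ pri n := by exact_mod_cast pri_ge n
    linarith
  have hX4 : 4 ≤ X := (le_max_right _ _).trans hnR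
  have hX0 : 0 < X := by linarith
  have h1 := hX₀ X ((le_max_left _ _).trans hnR) (S.image (fun d : ℕ => (d : ℤ)))
    (le_trans (by exact_mod_cast Finset.card_image_le) hSc)
    (by
      intro b hb
      rw [Finset.mem_image] at hb
      obtain ⟨m, hm, rfl⟩ := hb
      have e3 : (m : ℝ) ≤ pri n + 1 := by exact_mod_cast (hS m hm).2.2
      push_cast
      rw [abs_of_nonneg (by positivity)]
      have e2 : X ^ (2:ℝ) = X * X := by
        rw [show (2:ℝ) = ((2:ℕ):ℝ) by norm_num, Real.rpow_natCast]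
        ring
      rw [e2]
      nlinarith) 0
  refine h1.trans (Nat.cast_le.2 (Set.ncard_le_ncard ?_ ?_))
  · intro m hm
    obtain ⟨q1, q2, q3, q4⟩ := hm
    refine ⟨?_, ?_, ?_, q1, q2, fun p hp hpn => ?_⟩
    · have e1 : (m : ℤ) % 2 = 0 := by simpa using q3
      have e2 : m % 2 = 0 := by omega
      exact Nat.even_iff.2 e2
    · have : (pri n : ℝ) < m := by linarith
      have : pri n < m := by exact_mod_cast this
      omega
    · have : (m : ℝ) ≤ ((pri (n + 1) + 1 : ℕ) : ℝ) := by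
        push_cast
        linarith
      exact_mod_cast this
    · obtain ⟨q, p1, p2, p3, p4⟩ := q4 _ (Finset.mem_image_of_mem _ hp)
      have e1 : ((m - p : ℕ) : ℤ) = (m : ℤ) - (p : ℤ) := by
        rw [Nat.cast_sub hpn.le]
      rw [← e1] at p3 p4
      rw [abs_of_nonneg (by positivity)] at p4
      exact ⟨q, p1, p2, by exact_mod_cast p3, by exact_mod_cast p4⟩
  · apply (Set.finite_Iic ⌊X + X ^ η⌋₊).subset
    intro a ha
    obtain ⟨_, _, _, _, h2, _⟩ := ha
    rw [Set.mem_Iic]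
    exact Nat.le_floor h2

end Pool.Agent.Results.MP_484fb8_nt.FirstPrimorialPrimes
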