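import Pool.Agent.N826.IT.F
import Pool.Agent.N733.TG.E
import Pool.Agent.Results.MP_484fb8_nt.AsymptoticEveryModulus

/-!
# Goldbach representations in primorial intervals along the orbits of Euler's function

Let `φ_k` be the `k`-th iterate of Euler's function and `f` a positive multiplicative function of at most polynomial growth
with `f p = p + c` for all large primes `p` (the identity, Euler's function, the sum of the divisors). There is a function
`κ(m)` tending to infinity such that for almost all `m` ALL even integers `n = α f(φ_k m) + h` with `k, α, |h| ≤ κ(m)`,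
`h ≠ 0`, satisfy the assertion of the problem: `n = p + q` with a prime `p` of the primorial interval just below the one of
`n` and a prime `q` of one of the two intervals, the number of these representations is the one predicted by Hardy and
Littlewood with a relative error of at most `1 / (κ(m) + 1)`, and the same is true if `p` is restricted to a window of a
length of at least `#(i) / (log n) ^ κ(m)`. The prime `p` belongs to an interval which can be as short as `n / log n`, so this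
does not follow from the number of all representations of `n` as a sum of two primes.

Proof. The iterates of `φ` are not multiplicative, their values are taken with large multiplicities, and they form a very
thin set. The classification of the integers `m` by the smooth parts of the shifted primes which occur along the orbit is in
`N826/IT` (`densk`); in a class the integer `α f(φ_k m) + h` lies in the class of `h` modulo a small modulus, and the theorem
of the starting files on this problem in the residue classes of every modulus (`AsymptoticEveryModulus`) is applied.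
-/

set_option autoImplicit false

namespace Pool.Agent.Results.MP_484fb8_nt.IteratedTotients

open Finset Filter Topology
open Pool.Agent.Results.MP_484fb8_nt.AsymptoticEveryModulus (Holds exceptional)

/-- A positive multiplicative function of at most polynomial growth with `f p = p + c` for all large primes `p`. -/
structure Shifted (f : ℕ → ℕ) (c : ℤ) : Prop where
  mul : ∀ m n : ℕ, Nat.Coprime m n → f (m * n) = f m * f n
  pos : ∀ m : ℕ, 1 ≤ m → 1 ≤ f m
  growth : ∃ C D : ℕ, ∀ m : ℕ, 1 ≤ m → f m ≤ C * m ^ D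
  prime : ∃ P : ℕ, ∀ p : ℕ, P ≤ p → p.Prime → (f p : ℤ) = p + c

open Classical in
/-- The proportion of the positive integers `m ≤ N` without the property `P` tends to `0`. -/
def AlmostAll (P : ℕ → Prop) : Prop :=
  Tendsto (fun N : ℕ => (((Icc 1 N).filter (fun m => ¬ P m)).card : ℝ) / N) atTop (𝓝 0)

theorem holds_mono {ε ε' : ℝ} {W A : ℕ} (hε : ε ≤ ε') (hWA : W ≤ A) {n : ℕ} (hn : 3 ≤ n)
    (h : Holds ε A n) : Holds ε' W n := by
  have hn3 : (3 : ℝ) ≤ n := by exact_mod_cast hn
  have hL1 : 1 ≤ Real.log n := by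
    rw [Real.le_log_iff_exp_le (by linarith)]
    have := Real.exp_one_lt_d9
    linarith
  have hs := Pool.Agent.W93.GB.one_le_sing n
  have hs0 : (0 : ℝ) ≤ Pool.Agent.H560R3.GB.sing n := by linarith
  intro i hi h1 h2
  obtain ⟨e1, e2, e3⟩ := h i hi h1 h2
  refine ⟨e1, e2.trans (mul_le_mul_of_nonneg_right hε (by positivity)), fun y₁ y₂ h12 hy hlen => ?_⟩
  have h3 : (0 : ℝ) ≤ (y₂ : ℝ) - y₁ := by
    have : (y₁ : ℝ) < y₂ := by exact_mod_cast h12
    linarith
  refine (e3 y₁ y₂ h12 hy (le_trans ?_ hlen)).trans (mul_le_mul_of_nonneg_right hε (by positivity))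
  apply div_le_div_of_nonneg_left (Nat.cast_nonneg _) (by positivity)
  exact pow_le_pow_right₀ hL1 hWA

/-- the exceptional set in the classes of `h` -/
theorem cb (h : ℤ) (hne : h ≠ 0) (ε : ℝ) (hε : 0 < ε) (W A : ℕ) :
    Pool.Agent.N733.TG.CB h (fun n => 2 ∣ n → Holds ε W n) A := by
  obtain ⟨X₀, hX₀⟩ := Pool.Agent.Results.MP_484fb8_nt.AsymptoticEveryModulus.result ε (1 / 12) hε (by norm_num) W A 1
  have hlog := (Real.tendsto_log_atTop.comp (tendsto_natCast_atTop_atTop (R := ℝ))).eventually_ge_atTop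
    (h.natAbs + 1 : ℝ)
  rw [eventually_atTop] at hlog
  obtain ⟨X₁, hX₁⟩ := hlog
  refine ⟨max ⌈X₀⌉₊ X₁, fun X hX q hq hqX S hS => ?_⟩
  have h1 := hX₁ X ((le_max_right _ _).trans hX)
  simp only [Function.comp] at h1
  have hgcd : (Int.gcd h q : ℝ) ≤ Real.log X ^ 1 := by
    rw [pow_one]
    refine le_trans ?_ (by linarith : (h.natAbs : ℝ) ≤ Real.log X)
    have : Int.gcd h q ≤ h.natAbs := Nat.le_of_dvd (Int.natAbs_pos.2 hne) (Nat.gcd_dvd_left _ _)
    exact_mod_cast this
  have hX0' : X₀ ≤ (X : ℝ) := (Nat.le_ceil X₀).trans (by exact_mod_cast (le_max_left _ _).trans hX)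
  obtain ⟨hfin, hcard⟩ := hX₀ X hX0' q hq (by
    rw [show (2 / 3 - 1 / 12 : ℝ) = 7 / 12 by norm_num]
    exact hqX) h hgcd
  refine le_trans ?_ hcard
  rw [← Set.ncard_coe_finset]
  have h2 : ((S : Set ℕ)).ncard ≤ (exceptional ε W X q h).ncard := by
    apply Set.ncard_le_ncard _ hfin
    intro n hn
    obtain ⟨e1, e2, e3, e4⟩ := hS n hn
    push Not at e4
    exact ⟨e1, by exact_mod_cast e2, e4.1, e3, e4.2⟩
  exact_mod_cast h2

theorem sm_of {f : ℕ → ℕ} {c : ℤ} (hf : Shifted f c) : Pool.Agent.N733.TG.SM f c :=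
  ⟨hf.mul, hf.pos, hf.growth, hf.prime⟩

/-- large values: `n < 3` is rare in all classes -/
theorem cb3 (h : ℤ) (A : ℕ) : Pool.Agent.N733.TG.CB h (fun n => 3 ≤ n) A := by
  have h2 := (isLittleO_log_rpow_rpow_atTop (s := (5 / 12 : ℝ)) (A : ℝ) (by norm_num)).bound
    (c := 1 / 2) (by positivity)
  have h3 := (tendsto_natCast_atTop_atTop (R := ℝ)).eventually h2
  obtain ⟨X₀, hX₀⟩ := eventually_atTop.1 h3
  refine ⟨max X₀ 3, fun X hX q hq hqX S hS => ?_⟩
  have h4 := hX₀ X ((le_max_left _ _).trans hX)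
  have hX3 : (3 : ℝ) ≤ X := by exact_mod_cast (le_max_right _ _).trans hX
  have hX0 : (0 : ℝ) < X := by linarith
  have hl : 0 ≤ Real.log X := Real.log_nonneg (by linarith)
  rw [Real.norm_of_nonneg (by positivity), Real.norm_of_nonneg (by positivity), Real.rpow_natCast] at h4
  have hq0 : (0 : ℝ) < q := by exact_mod_cast hq
  have hl1 : 1 ≤ Real.log X := by
    rw [Real.le_log_iff_exp_le (by linarith)]
    have := Real.exp_one_lt_d9
    linarith
  have hS2 : S.card ≤ 2 := by
    have : S ⊆ Icc 1 2 := by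
      intro n hn
      obtain ⟨e1, _, _, e4⟩ := hS n hn
      rw [mem_Icc]
      omega
    exact (card_le_card this).trans (by simp)
  have hS2' : (S.card : ℝ) ≤ 2 := by exact_mod_cast hS2
  refine hS2'.trans ?_
  rw [le_div_iff₀ (by positivity)]
  calc 2 * (q * Real.log X ^ A) ≤ 2 * ((X : ℝ) ^ (7 / 12 : ℝ) * (1 / 2 * (X : ℝ) ^ (5 / 12 : ℝ))) := by gcongr
    _ = (X : ℝ) ^ (7 / 12 : ℝ) * (X : ℝ) ^ (5 / 12 : ℝ) := by ring
    _ = X := by
      rw [← Real.rpow_add hX0]
      norm_num

open Classical in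
theorem almostAll_iff (P : ℕ → Prop) : AlmostAll P ↔ ∀ ε : ℝ, 0 < ε → ∃ N₀ : ℕ, ∀ N : ℕ, N₀ ≤ N →
    (((Icc 1 N).filter (fun m => ¬ P m)).card : ℝ) ≤ ε * N := by
  unfold AlmostAll
  rw [Metric.tendsto_atTop]
  constructor
  · intro h ε hε
    obtain ⟨N₀, hN₀⟩ := h ε hε
    refine ⟨max N₀ 1, fun N hN => ?_⟩
    have h1 := hN₀ N (le_trans (le_max_left _ _) hN)
    have h2 : (0 : ℝ) < N := by exact_mod_cast (le_trans (le_max_right N₀ 1) hN)
    rw [Real.dist_eq, sub_zero, abs_of_nonneg (by positivity), div_lt_iff₀ h2] at h1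
    exact h1.le
  · intro h ε hε
    obtain ⟨N₀, hN₀⟩ := h (ε / 2) (by positivity)
    refine ⟨max N₀ 1, fun N hN => ?_⟩
    have h1 := hN₀ N (le_trans (le_max_left _ _) hN)
    have h2 : (0 : ℝ) < N := by exact_mod_cast (le_trans (le_max_right N₀ 1) hN)
    rw [Real.dist_eq, sub_zero, abs_of_nonneg (by positivity), div_lt_iff₀ h2]
    nlinarith

theorem card_mono' {N : ℕ} {P Q : ℕ → Prop} {dP : DecidablePred P} {dQ : DecidablePred Q} (h : ∀ m, P m → Q m) :
    (@Finset.filter _ P dP (Icc 1 N)).card ≤ (@Finset.filter _ Q dQ (Icc 1 N)).card :=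
  card_le_card (fun m hm => Finset.mem_filter.2 ⟨(Finset.mem_filter.1 hm).1, h m (Finset.mem_filter.1 hm).2⟩)

theorem almostAll_mono {P Q : ℕ → Prop} (hP : AlmostAll P) (h : ∀ m, P m → Q m) : AlmostAll Q := by
  classical
  rw [almostAll_iff] at *
  intro ε hε
  obtain ⟨N₀, h₀⟩ := hP ε hε
  refine ⟨N₀, fun N hN => le_trans (Nat.cast_le.2 (card_mono' ?_)) (h₀ N hN)⟩
  intro m hm h1
  exact hm (h m h1)

theorem almostAll_true {P : ℕ → Prop} (h : ∀ m, P m) : AlmostAll P := by
  classical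
  rw [almostAll_iff]
  intro ε hε
  refine ⟨0, fun N _ => ?_⟩
  have : (Icc 1 N).filter (fun m => ¬ P m) = ∅ := by
    rw [filter_eq_empty_iff]
    intro m _ h1
    exact h1 (h m)
  rw [this]
  simp only [card_empty, Nat.cast_zero]
  positivity

theorem almostAll_and {P Q : ℕ → Prop} (hP : AlmostAll P) (hQ : AlmostAll Q) :
    AlmostAll (fun m => P m ∧ Q m) := by
  classical
  rw [almostAll_iff] at *
  intro ε hε
  obtain ⟨N₁, h₁⟩ := hP (ε / 2) (by positivity)
  obtain ⟨N₂, h₂⟩ := hQ (ε / 2) (by positivity)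
  refine ⟨max N₁ N₂, fun N hN => ?_⟩
  have b1 : (((Icc 1 N).filter (fun m => ¬ P m)).card : ℝ) ≤ ε / 2 * N :=
    le_trans (Nat.cast_le.2 (card_mono' fun m hm => hm)) (h₁ N (le_trans (le_max_left _ _) hN))
  have b2 : (((Icc 1 N).filter (fun m => ¬ Q m)).card : ℝ) ≤ ε / 2 * N :=
    le_trans (Nat.cast_le.2 (card_mono' fun m hm => hm)) (h₂ N (le_trans (le_max_right _ _) hN))
  have hsub : (Icc 1 N).filter (fun m => ¬ (P m ∧ Q m)) ⊆
      (Icc 1 N).filter (fun m => ¬ P m) ∪ (Icc 1 N).filter (fun m => ¬ Q m) := by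
    intro m hm
    rw [mem_filter] at hm
    rw [mem_union, mem_filter, mem_filter]
    by_cases h1 : P m
    · exact Or.inr ⟨hm.1, fun h2 => hm.2 ⟨h1, h2⟩⟩
    · exact Or.inl ⟨hm.1, h1⟩
  have hc := (card_le_card hsub).trans (card_union_le _ _)
  have hc' : (((Icc 1 N).filter (fun m => ¬ (P m ∧ Q m))).card : ℝ) ≤
      (((Icc 1 N).filter (fun m => ¬ P m)).card : ℝ) + ((Icc 1 N).filter (fun m => ¬ Q m)).card := by
    exact_mod_cast hc
  refine le_trans (Nat.cast_le.2 (card_mono' fun m hm => hm)) (hc'.trans ?_)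
  linarith

theorem almostAll_finset {ι : Type*} (s : Finset ι) {P : ι → ℕ → Prop} (h : ∀ i ∈ s, AlmostAll (P i)) :
    AlmostAll (fun m => ∀ i ∈ s, P i m) := by
  classical
  induction s using Finset.induction_on with
  | empty => exact almostAll_true (fun m i hi => absurd hi (notMem_empty i))
  | insert i s _ ih =>
    refine almostAll_mono (almostAll_and (h i (mem_insert_self i s))
      (ih (fun j hj => h j (mem_insert_of_mem hj)))) (fun m hm j hj => ?_)
    rcases mem_insert.1 hj with rfl | hj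
    · exact hm.1
    · exact hm.2 j hj

/-- diagonal argument -/
theorem diagonal {P : ℕ → ℕ → Prop} (hmono : ∀ i j m, i ≤ j → P j m → P i m) (h : ∀ j, AlmostAll (P j)) :
    ∃ κ : ℕ → ℕ, Tendsto κ atTop atTop ∧ AlmostAll (fun m => P (κ m) m) := by
  classical
  have h1 : ∀ j : ℕ, ∃ N₀ : ℕ, ∀ N : ℕ, N₀ ≤ N →
      (((Icc 1 N).filter (fun m => ¬ P j m)).card : ℝ) ≤ 1 / ((j : ℝ) + 1) * N := by
    intro j
    have h2 := (almostAll_iff (P j)).1 (h j) (1 / ((j : ℝ) + 1)) (by positivity)
    obtain ⟨N₀, hN₀⟩ := h2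
    exact ⟨N₀, fun N hN => le_trans (Nat.cast_le.2 (card_mono' fun m hm => hm)) (hN₀ N hN)⟩
  choose A hA using h1
  set κ : ℕ → ℕ := fun m => Nat.findGreatest (fun j => A j ≤ m) m with hκ
  have hκmono : Monotone κ := by
    intro m n hmn
    rw [hκ]
    simp only
    exact Nat.findGreatest_mono (fun j hj => le_trans hj hmn) hmn
  have hκge : ∀ j : ℕ, ∀ m, max (A j) j ≤ m → j ≤ κ m := by
    intro j m hm
    rw [hκ]
    simp only
    exact Nat.le_findGreatest (le_trans (le_max_right _ _) hm) (le_trans (le_max_left _ _) hm)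
  have hκt : Tendsto κ atTop atTop := by
    rw [tendsto_atTop_atTop]
    intro j
    exact ⟨max (A j) j, fun m hm => hκge j m hm⟩
  refine ⟨κ, hκt, ?_⟩
  rw [almostAll_iff]
  intro ε hε
  obtain ⟨j, hj⟩ := exists_nat_gt (1 / ε)
  refine ⟨max (max (A (j + 1)) (j + 1)) 1, fun N hN => ?_⟩
  have b1 : j + 1 ≤ κ N := hκge (j + 1) N (le_trans (le_max_left _ _) hN)
  have b2 : A (κ N) ≤ N := by
    have h3 : κ N ≠ 0 := by omega
    exact Nat.findGreatest_of_ne_zero (P := fun j => A j ≤ N) (n := N) rfl h3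
  have h4 := hA (κ N) N b2
  have hsub : (Icc 1 N).filter (fun m => ¬ P (κ m) m) ⊆ (Icc 1 N).filter (fun m => ¬ P (κ N) m) := by
    intro m hm
    rw [mem_filter, mem_Icc] at hm
    rw [mem_filter, mem_Icc]
    exact ⟨hm.1, fun h5 => hm.2 (hmono _ _ m (hκmono hm.1.2) h5)⟩
  have h5 : (((Icc 1 N).filter (fun m => ¬ P (κ m) m)).card : ℝ) ≤
      (((Icc 1 N).filter (fun m => ¬ P (κ N) m)).card : ℝ) := by exact_mod_cast card_le_card hsub
  have h6 : 1 / (((κ N : ℕ) : ℝ) + 1) ≤ ε := by
    rw [div_le_iff₀ (by positivity)]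
    rw [div_lt_iff₀ hε] at hj
    have : (j : ℝ) + 1 ≤ ((κ N : ℕ) : ℝ) := by exact_mod_cast b1
    nlinarith
  have hN0 : (0 : ℝ) ≤ N := Nat.cast_nonneg _
  refine le_trans (Nat.cast_le.2 (card_mono' fun m hm => hm)) (h5.trans (h4.trans ?_))
  exact mul_le_mul_of_nonneg_right h6 hN0

/-- iterates of `φ` and a property which is rarely violated in the classes of `h` -/
theorem denskα {f : ℕ → ℕ} {c : ℤ} (hf : Shifted f c) (α : ℕ) (hα : 1 ≤ α) (h : ℤ) (Q : ℕ → Prop)
    (hQ : ∀ A, Pool.Agent.N733.TG.CB h Q A) (k : ℕ) :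
    AlmostAll (fun m => 0 < (α : ℤ) * f (Nat.totient^[k] m) + h ∧
      Q ((α : ℤ) * f (Nat.totient^[k] m) + h).toNat) := by
  classical
  rw [almostAll_iff]
  intro δ hδ
  obtain ⟨N₀, h0⟩ := Pool.Agent.N826.IT.densk (sm_of hf) 1 _ (Pool.Agent.N733.TG.eb_of α hα h Q hQ) k δ hδ
  refine ⟨N₀, fun N hN => le_trans (Nat.cast_le.2 (card_mono' ?_)) (h0 N hN)⟩
  intro m hm h1
  refine hm ?_
  obtain ⟨e1, e2, e3⟩ := h1
  rw [Int.toNat_of_nonneg e1.le] at e2 e3
  rw [add_sub_cancel_right] at e2 e3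
  exact ⟨e2, e3⟩

theorem general (f : ℕ → ℕ) (c : ℤ) (hf : Shifted f c) (α : ℕ) (hα : 1 ≤ α) (h : ℤ) (hne : h ≠ 0) (ε : ℝ) (hε : 0 < ε)
    (W k : ℕ) :
    AlmostAll (fun m => 3 ≤ (α : ℤ) * f (Nat.totient^[k] m) + h ∧
      (Even ((α : ℤ) * f (Nat.totient^[k] m) + h) → Holds ε W ((α : ℤ) * f (Nat.totient^[k] m) + h).toNat)) := by
  refine almostAll_mono (almostAll_and
    (denskα hf α hα h (fun n => 2 ∣ n → Holds ε W n) (fun A => cb h hne ε hε W A) k)
    (denskα hf α hα h (fun n => 3 ≤ n) (fun A => cb3 h A) k)) (fun m hm => ?_)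
  obtain ⟨⟨h1, h2⟩, ⟨h3, h4⟩⟩ := hm
  refine ⟨by omega, fun he => h2 ?_⟩
  obtain ⟨t, ht⟩ := he
  omega

theorem shifted_totient : Shifted Nat.totient (-1) where
  mul := fun m n h => Nat.totient_mul h
  pos := fun m hm => Nat.totient_pos.2 hm
  growth := ⟨1, 1, fun m _ => by rw [one_mul, pow_one]; exact Nat.totient_le m⟩
  prime := ⟨0, fun p _ hp => by
    rw [Nat.totient_prime hp]
    have := hp.pos
    omega⟩

theorem shifted_sigma : Shifted (fun m => ∑ d ∈ m.divisors, d) 1 where
  mul := fun m n h => by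
    have := ArithmeticFunction.isMultiplicative_sigma (k := 1).map_mul_of_coprime h
    simpa [ArithmeticFunction.sigma_one_apply] using this
  pos := fun m hm => by
    calc 1 ≤ m := hm
      _ ≤ ∑ d ∈ m.divisors, d := single_le_sum (f := fun d => d) (fun _ _ => Nat.zero_le _)
        (Nat.mem_divisors_self m (by omega))
  growth := ⟨1, 2, fun m hm => by
    calc ∑ d ∈ m.divisors, d ≤ ∑ d ∈ m.divisors, m := sum_le_sum (fun d hd => Nat.divisor_le hd)
      _ = m.divisors.card * m := by rw [sum_const, smul_eq_mul]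
      _ ≤ m * m := Nat.mul_le_mul_right _ (Nat.card_divisors_le_self m)
      _ = 1 * m ^ 2 := by ring⟩
  prime := ⟨0, fun p _ hp => by
    rw [Nat.Prime.sum_divisors hp]
    push_cast
    ring⟩

theorem shifted_id : Shifted (fun m => m) 0 where
  mul := fun m n _ => rfl
  pos := fun m hm => hm
  growth := ⟨1, 1, fun m _ => by rw [one_mul, pow_one]⟩
  prime := ⟨0, fun p _ _ => by rw [add_zero]⟩

/-- **Primorial intervals along all orbits of Euler's function.** (1) Let `f` be a positive multiplicative function of at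
most polynomial growth with `f p = p + c` for all large primes `p`. There is a function `κ` tending to infinity such that
for almost all `m`, with `j = κ m`, ALL integers `n = α f(φ_k m) + h` with `k ≤ j`, `1 ≤ α ≤ j`, `0 < |h| ≤ j` are positive
and, if `n` is even, the assertion of the problem holds for `n`, with the predicted number of representations up to a
relative error of at most `1 / (j + 1)`, also for `p` in windows of a length of at least `#(i) / (log n)^j` of the primorial
interval. (2) The identity, Euler's function and the sum of the divisors are examples of such functions `f`. -/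
theorem result :
    (∀ (f : ℕ → ℕ) (c : ℤ), Shifted f c → ∃ κ : ℕ → ℕ, Tendsto κ atTop atTop ∧
      AlmostAll (fun m => ∀ k α : ℕ, ∀ h : ℤ, k ≤ κ m → 1 ≤ α → α ≤ κ m → |h| ≤ κ m → h ≠ 0 →
        0 < (α : ℤ) * f (Nat.totient^[k] m) + h ∧ (Even ((α : ℤ) * f (Nat.totient^[k] m) + h) →
          Holds (1 / ((κ m : ℝ) + 1)) (κ m) ((α : ℤ) * f (Nat.totient^[k] m) + h).toNat))) ∧
    (Shifted (fun m => m) 0 ∧ Shifted Nat.totient (-1) ∧ Shifted (fun m => ∑ d ∈ m.divisors, d) 1) := by
  refine ⟨fun f c hf => ?_, ⟨shifted_id, shifted_totient, shifted_sigma⟩⟩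
  obtain ⟨κ, hκ, h⟩ := diagonal (P := fun j m => ∀ k α : ℕ, ∀ h : ℤ, k ≤ j → 1 ≤ α → α ≤ j → |h| ≤ j → h ≠ 0 →
      3 ≤ (α : ℤ) * f (Nat.totient^[k] m) + h ∧ (Even ((α : ℤ) * f (Nat.totient^[k] m) + h) →
        Holds (1 / ((j : ℝ) + 1)) j ((α : ℤ) * f (Nat.totient^[k] m) + h).toNat)) (by
    intro i j m hij hP k α h hk hα1 hα hh hne
    have hij' : (i : ℤ) ≤ j := by exact_mod_cast hij
    obtain ⟨h1, h2⟩ := hP k α h (hk.trans hij) hα1 (hα.trans hij) (hh.trans hij') hne
    refine ⟨h1, fun he => holds_mono ?_ hij (by omega) (h2 he)⟩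
    apply one_div_le_one_div_of_le (by positivity)
    have : (i : ℝ) ≤ j := by exact_mod_cast hij
    linarith) (by
    intro j
    have h0 := almostAll_finset ((range (j + 1) ×ˢ range (j + 1)) ×ˢ Icc (-(j : ℤ)) j)
      (P := fun (x : (ℕ × ℕ) × ℤ) m => 1 ≤ x.1.2 → x.2 ≠ 0 →
        3 ≤ (x.1.2 : ℤ) * f (Nat.totient^[x.1.1] m) + x.2 ∧ (Even ((x.1.2 : ℤ) * f (Nat.totient^[x.1.1] m) + x.2) →
        Holds (1 / ((j : ℝ) + 1)) j ((x.1.2 : ℤ) * f (Nat.totient^[x.1.1] m) + x.2).toNat)) (by
      intro x _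
      by_cases hx : 1 ≤ x.1.2 ∧ x.2 ≠ 0
      · obtain ⟨g1, g2⟩ := hx
        exact almostAll_mono (general f c hf x.1.2 g1 x.2 g2 (1 / ((j : ℝ) + 1)) (by positivity) j x.1.1)
          (fun m hm _ _ => hm)
      · exact almostAll_true (fun m g1 g2 => absurd ⟨g1, g2⟩ hx))
    refine almostAll_mono h0 (fun m hm k α h hk hα1 hα hh hne => ?_)
    have h1 := hm ((k, α), h) (by
      rw [abs_le] at hh
      simp only [mem_product, mem_range, mem_Icc]
      omega)
    exact h1 hα1 hne)
  refine ⟨κ, hκ, almostAll_mono h (fun m hm k α h hk hα1 hα hh hne => ?_)⟩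
  obtain ⟨h1, h2⟩ := hm k α h hk hα1 hα hh hne
  exact ⟨by omega, h2⟩

end Pool.Agent.Results.MP_484fb8_nt.IteratedTotients
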