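import Pool.Agent.N469.TL.Windows
import Pool.Agent.W93.PG7

/-!
# Goldbach representations in primorial intervals, for all even integers near almost all smooth numbers

Definitions used, in `Pool.Agent.H560R3.GB`: `C₂`: the twin prime constant `∏_{p > 2} (1 - 1 / (p - 1) ^ 2)`; `sing m`: the
singular series `2 C₂ ∏_{p ∣ m, p > 2} (p - 1) / (p - 2)`.

The proof combines an elementary bound for the exponential sum over the integers composed of primes from a given set
(`Pool.Agent.N469.SQ.exp_alt`: it is large only near few rational numbers with small denominators) with the second moment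
method of the starting files for Goldbach pairs in windows (`Pool.Agent.Y885.tl_windows`).
-/

set_option autoImplicit false

namespace Pool.Agent.Results.MP_484fb8_nt.SmoothNeighbourhoods

open Finset Pool.Agent.H560R3.GB

/-- `#(n)`: the product of the first `n` primes. -/
noncomputable def P (n : ℕ) : ℕ := ∏ i ∈ range n, Nat.nth Nat.Prime i

/-- The number of primes `p` in the `n`-th primorial interval such that `m - p` is a prime which lies in the
`n`-th or in the `n + 1`-st primorial interval. -/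
noncomputable def R (n m : ℕ) : ℕ :=
  ((Icc (P (n - 1) + 1) (P n + 1)).filter
    (fun p => p.Prime ∧ (m - p).Prime ∧ P (n - 1) + 1 ≤ m - p ∧ m - p ≤ P (n + 1) + 1)).card

/-- If `m` belongs to the `n + 1`-st primorial interval (`n ≥ 1`), then `m = p + q` where `p` is a prime in the
`n`-th primorial interval and `q` is a prime in the `n`-th or in the `n + 1`-st one; moreover, up to a relative
error of at most `ε`, the number of these representations is `sing m * #(n) / log ^ 2 m`. -/
def Holds (ε : ℝ) (m : ℕ) : Prop :=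
  ∀ n : ℕ, 1 ≤ n → P n + 1 ≤ m → m ≤ P (n + 1) + 1 →
    (∃ p q : ℕ, p.Prime ∧ q.Prime ∧ m = p + q ∧ P (n - 1) + 1 ≤ p ∧ p ≤ P n + 1 ∧ P (n - 1) + 1 ≤ q ∧ q ≤ P (n + 1) + 1) ∧
    |(R n m : ℝ) - sing m * P n / Real.log m ^ 2| ≤ ε * (sing m * P n / Real.log m ^ 2)

lemma holds_of (ε : ℝ) (hε : 0 < ε) : ∃ m₀ : ℕ, ∀ m : ℕ, m₀ ≤ m → 2 ∣ m →
    Pool.Agent.W93.PG.WinP (min ε (1 / 2) / 4) 2 m → Holds ε m := by
  obtain ⟨m₀, h0⟩ := Pool.Agent.W93.PG.reps_of_win (min ε (1 / 2)) (lt_min hε (by norm_num))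
    ((min_le_right _ _).trans (by norm_num))
  refine ⟨m₀ + 3, ?_⟩
  intro m hm _ hwin n hn h2 h3
  have h4 := h0 m (by omega) hwin n hn h2 h3
  have hm0 : (3 : ℝ) ≤ m := by exact_mod_cast (by omega : 3 ≤ m)
  have hlog : 0 < Real.log m := Real.log_pos (by linarith)
  have hs := Pool.Agent.W93.GB.one_le_sing m
  have hP : (0 : ℝ) < P n := by exact_mod_cast Pool.Agent.W93.PG.PR_pos n
  have hmain : 0 < sing m * P n / Real.log m ^ 2 := by positivity
  have hR : R n m = Pool.Agent.W93.PG.reps n m := rfl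
  have hPR : Pool.Agent.W93.PG.PR n = P n := rfl
  rw [← hR, hPR] at h4
  have h5 : |(R n m : ℝ) - sing m * P n / Real.log m ^ 2| ≤ ε * (sing m * P n / Real.log m ^ 2) :=
    h4.trans (mul_le_mul_of_nonneg_right (min_le_left _ _) hmain.le)
  have h6 : |(R n m : ℝ) - sing m * P n / Real.log m ^ 2| ≤ 1 / 2 * (sing m * P n / Real.log m ^ 2) :=
    h4.trans (mul_le_mul_of_nonneg_right (min_le_right _ _) hmain.le)
  refine ⟨?_, h5⟩
  have h7 : (0 : ℝ) < R n m := by
    rw [abs_le] at h6
    linarith [h6.1]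
  have h8 : 0 < R n m := by exact_mod_cast h7
  unfold R at h8
  rw [card_pos] at h8
  obtain ⟨p, hp⟩ := h8
  rw [mem_filter, mem_Icc] at hp
  obtain ⟨⟨p1, p2⟩, p3, p4, p5, p6⟩ := hp
  exact ⟨p, m - p, p3, p4, by have := p4.pos; omega, p1, p2, p5, p6⟩

/-- The integers `1 ≤ v ≤ N` all of whose prime factors belong to `P`. -/
def composedOf (P : Finset ℕ) (N : ℕ) : Finset ℕ := (Icc 1 N).filter fun v => v.primeFactors ⊆ P

/-- The `y`-smooth integers `1 ≤ v ≤ N`: the integers all of whose prime factors are at most `y`. -/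
def smooth (y N : ℕ) : Finset ℕ := (Icc 1 N).filter fun v => ∀ p ∈ v.primeFactors, p ≤ y

open Classical in
/-- Let `W`, `U`, `K`, `B`, the integer `κ ≠ 0`, `ε > 0` and `δ > 0` be fixed, let `N` be large, `1 ≤ y ≤ log ^ K N`, and let `c` be
an arbitrary integer with `|c| ≤ B N`.

(1) Let `P` be an arbitrary set of primes which are at most `y`, with at least `y ^ (1 / 2 + δ) log N` elements. Then
for all the integers `v ≤ N` composed of primes from `P`, up to a proportion of at most `1 / log ^ U N` of them, ALL the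
even integers `m > 0` at a distance of at most `log ^ W N` from `c + κ v` have the following property: the
assertion of the problem holds for `m`, and the number of the representations required there is as predicted by Hardy and
Littlewood, up to a relative error of at most `ε`.
(There can be as few as about `N ^ (1 / 2 + δ)` such integers `v`.)

(2) In particular this holds for all the `y`-smooth integers `v ≤ N`, up to a proportion of at most `1 / log ^ U N` of them,
if `y ≥ log ^ (2 + δ) N`. -/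
theorem result (W U K B : ℕ) (κ : ℤ) (hκ : κ ≠ 0) (ε : ℝ) (hε : 0 < ε) (δ : ℝ) (hδ : 0 < δ) :
    ∃ N₀ : ℕ, ∀ N, N₀ ≤ N → ∀ y : ℕ, 1 ≤ y → (y : ℝ) ≤ Real.log N ^ K → ∀ c : ℤ, |c| ≤ B * N →
      (∀ P : Finset ℕ, (∀ p ∈ P, p.Prime ∧ p ≤ y) → (y : ℝ) ^ (1 / 2 + δ) * Real.log N ≤ P.card →
        (((composedOf P N).filter fun v : ℕ => ∃ m : ℕ, 0 < m ∧ Even m ∧ |((m - (c + κ * v) : ℤ) : ℝ)| ≤ Real.log N ^ W ∧
          ¬ Holds ε m).card : ℝ) ≤ ((composedOf P N).card : ℝ) / Real.log N ^ U) ∧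
      (Real.log N ^ (2 + δ) ≤ y →
        (((smooth y N).filter fun v : ℕ => ∃ m : ℕ, 0 < m ∧ Even m ∧ |((m - (c + κ * v) : ℤ) : ℝ)| ≤ Real.log N ^ W ∧
          ¬ Holds ε m).card : ℝ) ≤ ((smooth y N).card : ℝ) / Real.log N ^ U) := by
  obtain ⟨m₀, hm₀⟩ := holds_of ε hε
  obtain ⟨N₀, h0⟩ := Pool.Agent.N469.TL.both δ hδ K U _ (Pool.Agent.N469.TL.sm_windows κ hκ K B 2 W U m₀ (min ε (1 / 2) / 4)
    (div_pos (lt_min hε (by norm_num)) (by norm_num)) (fun m => Holds ε m) hm₀)
  refine ⟨N₀, fun N hN y hy hy' c hc => ?_⟩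
  refine h0 N hN y hy hy' (fun v : ℕ => ∃ m : ℕ, 0 < m ∧ Even m ∧ |((m - (c + κ * v) : ℤ) : ℝ)| ≤ Real.log N ^ W ∧
          ¬ Holds ε m) (fun v => inferInstance) ⟨c, hc, fun v hv => ?_⟩
  obtain ⟨m, hm0, hme, hm, hbad⟩ := hv
  have e0 : c + κ * (v : ℤ) + ((m : ℤ) - (c + κ * v)) = m := by ring
  refine ⟨(m : ℤ) - (c + κ * v), hm, by rw [e0]; exact_mod_cast hm0, ?_⟩
  rw [e0, Int.toNat_natCast]
  exact ⟨by exact_mod_cast hme.two_dvd, hbad⟩

end Pool.Agent.Results.MP_484fb8_nt.SmoothNeighbourhoods
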